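import Mathlib

/-!
The irreducible representation of a C*-algebra given by a minimal projection; the compact operators
are in its range.
-/

set_option autoImplicit false

open scoped Topology InnerProductSpace

noncomputable section

namespace Pool.Agent.N607.ND

/-- minimal projections -/
structure Min {R : Type} [CStarAlgebra R] (p : R) : Prop where
  ne : p ≠ 0
  sa : star p = p
  idem : p * p = p
  min : ∀ x, ∃ c : ℂ, p * x * p = c • p

namespace Min

variable {R : Type} [CStarAlgebra R] {p : R}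

/-- the vector state -/
def f (h : Min p) (x : R) : ℂ := (h.min x).choose

lemma f_spec (h : Min p) (x : R) : p * x * p = h.f x • p := (h.min x).choose_spec

lemma cancel (h : Min p) {c d : ℂ} (hcd : c • p = d • p) : c = d := smul_left_injective ℂ h.ne hcd

lemma norm_p (h : Min p) : ‖p‖ = 1 := by
  have h1 : ‖p‖ * ‖p‖ = ‖p‖ := by
    rw [← CStarRing.norm_star_mul_self (x := p), h.sa, h.idem]
  have h2 : ‖p‖ ≠ 0 := norm_ne_zero_iff.2 h.ne
  exact mul_left_cancel₀ h2 (by rw [h1, mul_one])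

lemma f_eq (h : Min p) {x : R} {c : ℂ} (hx : p * x * p = c • p) : h.f x = c :=
  h.cancel (by rw [← h.f_spec, hx])

/-- the vectors -/
def sp (p : R) : Submodule ℂ R where
  carrier := {y | y * p = y}
  add_mem' := by
    intro a b ha hb
    simp only [Set.mem_ofPred_eq] at *
    rw [add_mul, ha, hb]
  zero_mem' := by simp
  smul_mem' := by
    intro c a ha
    simp only [Set.mem_ofPred_eq] at *
    rw [smul_mul_assoc, ha]

lemma isClosed_sp (p : R) : IsClosed ((sp p : Submodule ℂ R) : Set R) := by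
  have : ((sp p : Submodule ℂ R) : Set R) = {y | y * p = y} := rfl
  rw [this]
  exact isClosed_eq (by fun_prop) (by fun_prop)

/-- the Hilbert space -/
def Hs (_h : Min p) : Type := sp p

instance (h : Min p) : NormedAddCommGroup (Hs h) := inferInstanceAs (NormedAddCommGroup (sp p))

instance ns (h : Min p) : NormedSpace ℂ (Hs h) := inferInstanceAs (NormedSpace ℂ (sp p))

instance (h : Min p) : CompleteSpace (Hs h) :=
  (isClosed_sp p).completeSpace_coe

/-- the element of the algebra -/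
def v (h : Min p) (x : Hs h) : R := (show sp p from x).1

/-- vectors from elements -/
def mkv (h : Min p) (y : R) (hy : y * p = y) : Hs h := (⟨y, hy⟩ : sp p)

lemma v_mkv (h : Min p) (y : R) (hy : y * p = y) : h.v (h.mkv y hy) = y := rfl

lemma v_mul (h : Min p) (x : Hs h) : h.v x * p = h.v x := (show sp p from x).2

lemma v_inj (h : Min p) {x y : Hs h} (hxy : h.v x = h.v y) : x = y := Subtype.ext hxy

lemma v_add (h : Min p) (x y : Hs h) : h.v (x + y) = h.v x + h.v y := rfl
lemma v_smul (h : Min p) (c : ℂ) (x : Hs h) : h.v (c • x) = c • h.v x := rfl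
lemma v_zero (h : Min p) : h.v (0 : Hs h) = 0 := rfl
lemma norm_v (h : Min p) (x : Hs h) : ‖h.v x‖ = ‖x‖ := rfl

lemma star_v (h : Min p) (x : Hs h) : p * star (h.v x) = star (h.v x) := by
  nth_rewrite 1 [← h.sa]
  rw [← star_mul, v_mul]

lemma f_vv (h : Min p) (x y : Hs h) : star (h.v x) * h.v y = h.f (star (h.v x) * h.v y) • p := by
  rw [← f_spec, ← mul_assoc, star_v, mul_assoc, v_mul]

lemma f_add (h : Min p) (x y : R) : h.f (x + y) = h.f x + h.f y :=
  h.f_eq (by rw [mul_add, add_mul, h.f_spec, h.f_spec, add_smul])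

lemma f_smul (h : Min p) (c : ℂ) (x : R) : h.f (c • x) = c * h.f x :=
  h.f_eq (by rw [mul_smul_comm, smul_mul_assoc, h.f_spec, smul_smul])

lemma f_star (h : Min p) (x : R) : h.f (star x) = (starRingEnd ℂ) (h.f x) := by
  apply h.f_eq
  have h1 : p * star x * p = star (p * x * p) := by
    rw [star_mul, star_mul, h.sa, mul_assoc]
  rw [h1, h.f_spec, star_smul, h.sa]
  rfl

lemma norm_sq (h : Min p) (x : Hs h) : ‖x‖ ^ 2 = (h.f (star (h.v x) * h.v x)).re := by
  let _ : PartialOrder R := CStarAlgebra.spectralOrder R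
  let _ : StarOrderedRing R := CStarAlgebra.spectralOrderedRing R
  set c := h.f (star (h.v x) * h.v x) with hc
  have h1 : star (h.v x) * h.v x = c • p := h.f_vv x x
  have h2 : (starRingEnd ℂ) c = c := by
    rw [hc, ← h.f_star, star_mul, star_star]
  have h3 : ((c.re : ℝ) : ℂ) = c := Complex.conj_eq_iff_re.1 h2
  have h4 : 0 ≤ c.re := by
    by_contra h5
    push Not at h5
    have h6 : (0 : R) ≤ c • p := by
      rw [← h1]
      exact star_mul_self_nonneg _
    have h7 : (0 : R) ≤ (-c.re) • p := by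
      refine smul_nonneg (by linarith) ?_
      rw [← h.idem]
      nth_rewrite 1 [← h.sa]
      exact star_mul_self_nonneg _
    have h8 : c • p = c.re • p := by
      nth_rewrite 1 [← h3]
      exact Complex.coe_smul _ _
    have h9 : c • p = 0 := by
      apply le_antisymm _ h6
      rw [h8]
      rw [neg_smul] at h7
      exact neg_nonneg.1 h7
    rcases smul_eq_zero.1 h9 with h10 | h10
    · rw [h10] at h5
      simp at h5
    · exact h.ne h10
  have h5 : ‖h.v x‖ * ‖h.v x‖ = ‖c‖ := by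
    rw [← CStarRing.norm_star_mul_self (x := h.v x), h1, norm_smul, h.norm_p, mul_one]
  rw [← h.norm_v, sq, h5, ← h3, Complex.norm_real, Real.norm_eq_abs, abs_of_nonneg h4]
  simp

instance ips (h : Min p) : InnerProductSpace ℂ (Hs h) :=
  { ns h with
    inner := fun x y => h.f (star (h.v x) * h.v y)
    norm_sq_eq_re_inner := fun x => h.norm_sq x
    conj_inner_symm := fun x y => by
      show (starRingEnd ℂ) (h.f (star (h.v y) * h.v x)) = h.f (star (h.v x) * h.v y)
      rw [← h.f_star, star_mul, star_star]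
    add_left := fun x y z => by
      show h.f (star (h.v (x + y)) * h.v z) = h.f (star (h.v x) * h.v z) +
        h.f (star (h.v y) * h.v z)
      rw [v_add, star_add, add_mul, f_add]
    smul_left := fun x y r => by
      show h.f (star (h.v (r • x)) * h.v y) = (starRingEnd ℂ) r * h.f (star (h.v x) * h.v y)
      rw [v_smul, star_smul, smul_mul_assoc, f_smul]
      rfl }

lemma inner_def (h : Min p) (x y : Hs h) : ⟪x, y⟫_ℂ = h.f (star (h.v x) * h.v y) := rfl

lemma star_v_mul_v (h : Min p) (x y : Hs h) : star (h.v x) * h.v y = ⟪x, y⟫_ℂ • p := h.f_vv x y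

instance (h : Min p) : Nontrivial (Hs h) := by
  refine ⟨⟨h.mkv p h.idem, 0, fun h0 => h.ne ?_⟩⟩
  have := congrArg h.v h0
  rwa [v_mkv, v_zero] at this

/-- the operator of left multiplication -/
def op (h : Min p) (x : R) : Hs h →L[ℂ] Hs h :=
  LinearMap.mkContinuous
    { toFun := fun y => h.mkv (x * h.v y) (by rw [mul_assoc, v_mul])
      map_add' := fun y z => h.v_inj (by
        simp only [v_mkv, v_add, mul_add])
      map_smul' := fun c y => h.v_inj (by
        simp only [v_mkv, v_smul, RingHom.id_apply, mul_smul_comm]) } ‖x‖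
    (fun y => by
      show ‖h.mkv (x * h.v y) _‖ ≤ _
      rw [← norm_v, v_mkv, ← norm_v h y]
      exact norm_mul_le _ _)

lemma v_op (h : Min p) (x : R) (y : Hs h) : h.v (h.op x y) = x * h.v y := rfl

/-- the representation -/
def rep (h : Min p) : R →⋆ₙₐ[ℂ] (Hs h →L[ℂ] Hs h) where
  toFun := h.op
  map_smul' := fun c x => by
    ext y
    apply h.v_inj
    show h.v (h.op (c • x) y) = h.v (c • h.op x y)
    rw [v_op, v_smul, v_op, smul_mul_assoc]
  map_zero' := by
    ext y
    apply h.v_inj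
    show h.v (h.op 0 y) = h.v 0
    rw [v_op, zero_mul, v_zero]
  map_add' := fun x z => by
    ext y
    apply h.v_inj
    show h.v (h.op (x + z) y) = h.v (h.op x y + h.op z y)
    rw [v_op, v_add, v_op, v_op, add_mul]
  map_mul' := fun x z => by
    ext y
    apply h.v_inj
    show h.v (h.op (x * z) y) = h.v (h.op x (h.op z y))
    rw [v_op, v_op, v_op, mul_assoc]
  map_star' := fun x => by
    show h.op (star x) = star (h.op x)
    rw [ContinuousLinearMap.star_eq_adjoint]
    rw [ContinuousLinearMap.eq_adjoint_iff]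
    intro y z
    rw [inner_def, inner_def, v_op, v_op, star_mul, star_star, mul_assoc]

lemma v_rep (h : Min p) (x : R) (y : Hs h) : h.v (h.rep x y) = x * h.v y := rfl

lemma norm_rep_le (h : Min p) (x : R) : ‖h.rep x‖ ≤ ‖x‖ :=
  NonUnitalStarAlgHom.norm_apply_le h.rep x

lemma continuous_rep (h : Min p) : Continuous h.rep :=
  AddMonoidHomClass.continuous_of_bound h.rep 1 fun x => by
    rw [one_mul]
    exact h.norm_rep_le x

/-- rank one operators -/
lemma rep_rankOne (h : Min p) (x y z : Hs h) :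
    h.rep (h.v x * star (h.v y)) z = ⟪y, z⟫_ℂ • x := by
  apply h.v_inj
  rw [v_rep, v_smul, mul_assoc, star_v_mul_v, mul_smul_comm, v_mul]

lemma compact_rankOne (h : Min p) (x y : Hs h) :
    IsCompactOperator (h.rep (h.v x * star (h.v y))) := by
  have h1 : IsCompactOperator (innerSL ℂ y : Hs h →L[ℂ] ℂ) :=
    isCompactOperator_of_locallyCompactSpace_dom _
  have h2 := h1.clm_comp (ContinuousLinearMap.toSpanSingleton ℂ x)
  have h3 : (h.rep (h.v x * star (h.v y)) : Hs h → Hs h) =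
      (ContinuousLinearMap.toSpanSingleton ℂ x) ∘ (innerSL ℂ y : Hs h →L[ℂ] ℂ) := by
    ext z
    rw [rep_rankOne]
    simp
  rw [h3]
  exact h2

/-! ### the ideal of compact operators -/

/-- elements of `C` acting as compact operators, orthogonal to the kernel -/
def K (h : Min p) (C : Submodule ℂ R) (hmul : ∀ x ∈ C, ∀ y, x * y ∈ C ∧ y * x ∈ C) :
    NonUnitalStarSubalgebra ℂ R where
  carrier := {k | (k ∈ C ∧ star k ∈ C) ∧
    (IsCompactOperator (h.rep k) ∧ IsCompactOperator (h.rep (star k))) ∧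
    ∀ z : R, (∀ x, z * x * p = 0) → z * k = 0 ∧ z * star k = 0}
  add_mem' := by
    rintro a b ⟨⟨a1, a2⟩, ⟨a3, a4⟩, a5⟩ ⟨⟨b1, b2⟩, ⟨b3, b4⟩, b5⟩
    refine ⟨⟨C.add_mem a1 b1, by rw [star_add]; exact C.add_mem a2 b2⟩, ⟨?_, ?_⟩, ?_⟩
    · rw [map_add]
      exact a3.add b3
    · rw [star_add, map_add]
      exact a4.add b4
    · intro z hz
      rw [star_add, mul_add, mul_add, (a5 z hz).1, (a5 z hz).2, (b5 z hz).1, (b5 z hz).2, add_zero]
      exact ⟨rfl, rfl⟩
  zero_mem' := by
    refine ⟨⟨C.zero_mem, by rw [star_zero]; exact C.zero_mem⟩, ⟨?_, ?_⟩, ?_⟩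
    · rw [map_zero]
      exact isCompactOperator_zero
    · rw [star_zero, map_zero]
      exact isCompactOperator_zero
    · intro z _
      simp
  smul_mem' := by
    rintro c a ⟨⟨a1, a2⟩, ⟨a3, a4⟩, a5⟩
    refine ⟨⟨C.smul_mem c a1, by rw [star_smul]; exact C.smul_mem _ a2⟩, ⟨?_, ?_⟩, ?_⟩
    · rw [map_smul]
      exact a3.smul c
    · rw [star_smul, map_smul]
      exact a4.smul (star c)
    · intro z hz
      rw [star_smul, mul_smul_comm, mul_smul_comm, (a5 z hz).1, (a5 z hz).2, smul_zero, smul_zero]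
      exact ⟨rfl, rfl⟩
  mul_mem' := by
    rintro a b ⟨⟨a1, a2⟩, ⟨a3, a4⟩, a5⟩ ⟨⟨b1, b2⟩, ⟨b3, b4⟩, b5⟩
    refine ⟨⟨(hmul a a1 b).1, by rw [star_mul]; exact (hmul _ a2 _).2⟩, ⟨?_, ?_⟩, ?_⟩
    · rw [map_mul]
      exact a3.comp_clm (h.rep b)
    · rw [star_mul, map_mul]
      exact b4.comp_clm (h.rep (star a))
    · intro z hz
      rw [star_mul, ← mul_assoc, ← mul_assoc, (a5 z hz).1, (b5 z hz).2, zero_mul, zero_mul]
      exact ⟨rfl, rfl⟩
  star_mem' := by
    rintro a ⟨⟨a1, a2⟩, ⟨a3, a4⟩, a5⟩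
    refine ⟨⟨a2, by rw [star_star]; exact a1⟩, ⟨a4, by rw [star_star]; exact a3⟩, ?_⟩
    intro z hz
    rw [star_star]
    exact (a5 z hz).symm

lemma mem_K (h : Min p) (C : Submodule ℂ R) (hmul : ∀ x ∈ C, ∀ y, x * y ∈ C ∧ y * x ∈ C) (k : R) :
    k ∈ h.K C hmul ↔ (k ∈ C ∧ star k ∈ C) ∧
    (IsCompactOperator (h.rep k) ∧ IsCompactOperator (h.rep (star k))) ∧
    ∀ z : R, (∀ x, z * x * p = 0) → z * k = 0 ∧ z * star k = 0 := Iff.rfl

lemma isClosed_compact {H : Type} [NormedAddCommGroup H] [InnerProductSpace ℂ H]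
    [CompleteSpace H] : IsClosed {T : H →L[ℂ] H | IsCompactOperator T} :=
  isClosed_setOfPred_isCompactOperator

lemma isClosed_K (h : Min p) (C : Submodule ℂ R) (hmul : ∀ x ∈ C, ∀ y, x * y ∈ C ∧ y * x ∈ C)
    (hC : IsClosed (C : Set R)) : IsClosed (h.K C hmul : Set R) := by
  have e : (h.K C hmul : Set R) = ((C : Set R) ∩ star ⁻¹' (C : Set R)) ∩
    ((h.rep ⁻¹' {T | IsCompactOperator T} ∩ (fun k => h.rep (star k)) ⁻¹' {T | IsCompactOperator T})
      ∩ ⋂ (z : R) (_ : ∀ x, z * x * p = 0), {k | z * k = 0} ∩ {k | z * star k = 0}) := by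
    ext k
    simp only [SetLike.mem_coe, mem_K, Set.mem_inter_iff, Set.mem_preimage, Set.mem_iInter,
      Set.mem_ofPred_eq]
  rw [e]
  have hr := h.continuous_rep
  refine (hC.inter (hC.preimage continuous_star)).inter
    (((isClosed_compact.preimage hr).inter
      (isClosed_compact.preimage (hr.comp continuous_star))).inter ?_)
  refine isClosed_iInter fun z => isClosed_iInter fun _ => IsClosed.inter ?_ ?_
  · exact isClosed_eq (by fun_prop) (by fun_prop)
  · exact isClosed_eq (by fun_prop) (by fun_prop)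

lemma K_mul (h : Min p) (C : Submodule ℂ R) (hmul : ∀ x ∈ C, ∀ y, x * y ∈ C ∧ y * x ∈ C)
    {k : R} (hk : k ∈ h.K C hmul) (r : R) : k * r ∈ h.K C hmul ∧ r * k ∈ h.K C hmul := by
  obtain ⟨⟨a1, a2⟩, ⟨a3, a4⟩, a5⟩ := (mem_K h C hmul k).1 hk
  constructor
  · rw [mem_K]
    refine ⟨⟨(hmul k a1 r).1, by rw [star_mul]; exact (hmul _ a2 _).2⟩, ⟨?_, ?_⟩, ?_⟩
    · rw [map_mul]
      exact a3.comp_clm (h.rep r)
    · rw [star_mul, map_mul]
      exact a4.clm_comp (h.rep (star r))
    · intro z hz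
      refine ⟨by rw [← mul_assoc, (a5 z hz).1, zero_mul], ?_⟩
      rw [star_mul, ← mul_assoc]
      refine (a5 (z * star r) fun x => ?_).2
      rw [mul_assoc z, hz]
  · rw [mem_K]
    refine ⟨⟨(hmul k a1 r).2, by rw [star_mul]; exact (hmul _ a2 _).1⟩, ⟨?_, ?_⟩, ?_⟩
    · rw [map_mul]
      exact a3.clm_comp (h.rep r)
    · rw [star_mul, map_mul]
      exact a4.comp_clm (h.rep (star r))
    · intro z hz
      refine ⟨?_, by rw [star_mul, ← mul_assoc, (a5 z hz).2, zero_mul]⟩
      rw [← mul_assoc]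
      refine (a5 (z * r) fun x => ?_).1
      rw [mul_assoc z, hz]

lemma rankOne_mem_K (h : Min p) (C : Submodule ℂ R)
    (hmul : ∀ x ∈ C, ∀ y, x * y ∈ C ∧ y * x ∈ C) (hp : p ∈ C) (x y : Hs h) :
    h.v x * star (h.v y) ∈ h.K C hmul := by
  have hv : ∀ x : Hs h, h.v x ∈ C := fun x => by
    rw [← h.v_mul x]
    exact (hmul p hp _).2
  rw [mem_K]
  have e : star (h.v x * star (h.v y)) = h.v y * star (h.v x) := by
    rw [star_mul, star_star]
  rw [e]
  refine ⟨⟨(hmul _ (hv x) _).1, (hmul _ (hv y) _).1⟩,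
    ⟨h.compact_rankOne x y, h.compact_rankOne y x⟩, ?_⟩
  intro z hz
  rw [← h.v_mul x, ← h.v_mul y]
  refine ⟨?_, ?_⟩
  · rw [← mul_assoc, ← mul_assoc, hz, zero_mul]
  · rw [← mul_assoc, ← mul_assoc, hz, zero_mul]

/-- the restriction of the representation -/
def repK (h : Min p) (C : Submodule ℂ R) (hmul : ∀ x ∈ C, ∀ y, x * y ∈ C ∧ y * x ∈ C) :
    h.K C hmul →⋆ₙₐ[ℂ] (Hs h →L[ℂ] Hs h) :=
  h.rep.comp (NonUnitalStarSubalgebraClass.subtype (h.K C hmul))

lemma repK_apply (h : Min p) (C : Submodule ℂ R) (hmul : ∀ x ∈ C, ∀ y, x * y ∈ C ∧ y * x ∈ C)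
    (k : h.K C hmul) : h.repK C hmul k = h.rep (k : R) := rfl

lemma repK_inj (h : Min p) (C : Submodule ℂ R) (hmul : ∀ x ∈ C, ∀ y, x * y ∈ C ∧ y * x ∈ C) :
    Function.Injective (h.repK C hmul) := by
  rw [injective_iff_map_eq_zero]
  intro k hk
  rw [repK_apply] at hk
  have h1 : ∀ x, (k : R) * x * p = 0 := by
    intro x
    have h2 := congrArg (fun T : Hs h →L[ℂ] Hs h => h.v (T (h.mkv (x * p)
      (by rw [mul_assoc, h.idem])))) hk
    simp only [v_rep, v_mkv] at h2
    rw [mul_assoc, h2]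
    rfl
  have h3 := ((mem_K h C hmul _).1 k.2).2.2 _ h1
  have h4 : (k : R) = 0 := CStarRing.mul_star_self_eq_zero_iff _ |>.1 h3.2
  exact Subtype.ext h4

lemma isClosed_range (h : Min p) (C : Submodule ℂ R)
    (hmul : ∀ x ∈ C, ∀ y, x * y ∈ C ∧ y * x ∈ C) (hC : IsClosed (C : Set R)) :
    IsClosed (Set.range (h.repK C hmul)) := by
  have : IsClosed (h.K C hmul : Set R) := h.isClosed_K C hmul hC
  let _ : NonUnitalCStarAlgebra (h.K C hmul) :=
    NonUnitalStarSubalgebra.nonUnitalCStarAlgebra (h.K C hmul)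
  have h1 : Isometry (h.repK C hmul) := NonUnitalStarAlgHom.isometry _ (h.repK_inj C hmul)
  exact h1.isClosedEmbedding.isClosed_range

/-- approximation of compact operators by operators of finite rank -/
lemma approx (h : Min p) (C : Submodule ℂ R) (hmul : ∀ x ∈ C, ∀ y, x * y ∈ C ∧ y * x ∈ C)
    (hp : p ∈ C) {T : Hs h →L[ℂ] Hs h} (hT : IsCompactOperator T) {ε : ℝ} (hε : 0 < ε) :
    ∃ k ∈ h.K C hmul, ‖T - h.rep k‖ ≤ ε := by
  have h1 : TotallyBounded (closure ((T : Hs h →ₗ[ℂ] Hs h) '' Metric.closedBall 0 1)) :=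
    (IsCompactOperator.isCompact_closure_image_closedBall (f := (T : Hs h →ₗ[ℂ] Hs h)) hT
      1).totallyBounded
  obtain ⟨t, ht, ht2⟩ := Metric.totallyBounded_iff.1 h1 ε hε
  have : FiniteDimensional ℂ (Submodule.span ℂ t) := FiniteDimensional.span_of_finite ℂ ht
  set U := Submodule.span ℂ t with hU
  let b := stdOrthonormalBasis ℂ U
  refine ⟨∑ j, h.v (b j : Hs h) * star (h.v (ContinuousLinearMap.adjoint T (b j : Hs h))),
    sum_mem fun j _ => h.rankOne_mem_K C hmul hp _ _, ?_⟩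
  have h2 : ∀ z, h.rep (∑ j, h.v (b j : Hs h) *
      star (h.v (ContinuousLinearMap.adjoint T (b j : Hs h)))) z = U.starProjection (T z) := by
    intro z
    rw [map_sum, sum_apply, Submodule.starProjection_apply,
      b.orthogonalProjectionOnto_apply_eq_sum]
    rw [Submodule.coe_sum]
    refine Finset.sum_congr rfl fun j _ => ?_
    rw [rep_rankOne, ContinuousLinearMap.adjoint_inner_left]
    rfl
  have h3 : ∀ z : Hs h, ‖z‖ ≤ 1 → ‖T z - U.starProjection (T z)‖ ≤ ε := by
    intro z hz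
    have h4 : T z ∈ closure ((T : Hs h →ₗ[ℂ] Hs h) '' Metric.closedBall 0 1) :=
      subset_closure ⟨z, by simpa using hz, rfl⟩
    obtain ⟨y, hy, hy2⟩ := Set.mem_iUnion₂.1 (ht2 h4)
    rw [Submodule.starProjection_minimal]
    refine (ciInf_le ⟨0, ?_⟩ (⟨y, Submodule.subset_span hy⟩ : U)).trans ?_
    · rintro _ ⟨x, rfl⟩
      exact norm_nonneg _
    · rw [Metric.mem_ball, dist_eq_norm] at hy2
      exact hy2.le
  refine ContinuousLinearMap.opNorm_le_bound _ hε.le fun z => ?_
  rw [sub_apply, h2]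
  rcases eq_or_ne z 0 with rfl | hz
  · simp
  · have hz' : ‖z‖ ≠ 0 := norm_ne_zero_iff.2 hz
    have h5 : z = ((‖z‖ : ℝ) : ℂ) • ((((‖z‖)⁻¹ : ℝ) : ℂ) • z) := by
      rw [smul_smul, ← Complex.ofReal_mul, mul_inv_cancel₀ hz', Complex.ofReal_one, one_smul]
    have h6 : ‖(((‖z‖)⁻¹ : ℝ) : ℂ) • z‖ ≤ 1 := by
      rw [norm_smul, Complex.norm_real, norm_inv, norm_norm, inv_mul_cancel₀ hz']
    have h7 := h3 _ h6
    set w := (((‖z‖)⁻¹ : ℝ) : ℂ) • z with hw
    have h8 : T z - U.starProjection (T z) = ((‖z‖ : ℝ) : ℂ) • (T w - U.starProjection (T w)) := by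
      rw [smul_sub, ← map_smul, ← map_smul, ← map_smul, ← h5]
    rw [h8, norm_smul, Complex.norm_real, norm_norm, mul_comm]
    exact mul_le_mul_of_nonneg_right h7 (norm_nonneg _)

/-- compact operators are in the range -/
lemma compact_mem (h : Min p) (C : Submodule ℂ R) (hmul : ∀ x ∈ C, ∀ y, x * y ∈ C ∧ y * x ∈ C)
    (hC : IsClosed (C : Set R)) (hp : p ∈ C) {T : Hs h →L[ℂ] Hs h} (hT : IsCompactOperator T) :
    ∃ k ∈ h.K C hmul, h.rep k = T := by
  have h1 : T ∈ closure (Set.range (h.repK C hmul)) := by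
    rw [Metric.mem_closure_iff]
    intro ε hε
    obtain ⟨k, hk, hk2⟩ := h.approx C hmul hp hT (half_pos hε)
    refine ⟨h.rep k, ⟨⟨k, hk⟩, rfl⟩, ?_⟩
    rw [dist_eq_norm]
    linarith
  rw [(h.isClosed_range C hmul hC).closure_eq] at h1
  obtain ⟨k, hk⟩ := h1
  exact ⟨k, k.2, hk⟩

end Min

end Pool.Agent.N607.ND
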