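import Pool.Agent.N299.ND.Stm2
import Pool.Agent.Helper757.GL.Quot
import Pool.Agent.N607.ND.Min

/-!
Project ND: nowhere scatteredness in terms of ideals.
-/

set_option autoImplicit false

open scoped Topology Matrix.Norms.L2Operator

noncomputable section

namespace Pool.Agent.N607.ND

open Pool.Agent.N299.ND Pool.Agent.N299.ND.Pub
open Pool.Agent.Helper757.GL (CI Q)

variable {B : Type} [CStarAlgebra B] {J : Submodule ℂ B}

/-- the quotient map as a *-homomorphism -/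
def qm (H : CI J) : B →⋆ₙₐ[ℂ] Q H where
  toFun := Pool.Agent.Helper757.GL.mk H
  map_smul' := fun c x => Pool.Agent.Helper757.GL.mk_smul' H c x
  map_zero' := Pool.Agent.Helper757.GL.mk_zero H
  map_add' := Pool.Agent.Helper757.GL.mk_add H
  map_mul' := Pool.Agent.Helper757.GL.mk_mul H
  map_star' := Pool.Agent.Helper757.GL.mk_star H

lemma qm_eq (H : CI J) (a b : B) : qm H a = qm H b ↔ a - b ∈ J :=
  Pool.Agent.Helper757.GL.mk_eq H a b

lemma qm_zero (H : CI J) (a : B) : qm H a = 0 ↔ a ∈ J := by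
  rw [← map_zero (qm H), qm_eq, sub_zero]

lemma qm_surj (H : CI J) : Function.Surjective (qm H) := Pool.Agent.Helper757.GL.mk_surj H

lemma continuous_qm (H : CI J) : Continuous (qm H) :=
  AddMonoidHomClass.continuous_of_bound (qm H) 1 fun x => by
    rw [one_mul]
    exact NonUnitalStarAlgHom.norm_apply_le (qm H) x

/-- image of an ideal -/
def im (H : CI J) (I : Submodule ℂ B) : Submodule ℂ (Q H) where
  carrier := {x | ∃ b ∈ I, qm H b = x}
  add_mem' := by
    rintro _ _ ⟨a, ha, rfl⟩ ⟨b, hb, rfl⟩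
    exact ⟨a + b, I.add_mem ha hb, map_add _ _ _⟩
  zero_mem' := ⟨0, I.zero_mem, map_zero _⟩
  smul_mem' := by
    rintro c _ ⟨a, ha, rfl⟩
    exact ⟨c • a, I.smul_mem c ha, map_smul _ _ _⟩

lemma mem_im (H : CI J) (I : Submodule ℂ B) (x : Q H) : x ∈ im H I ↔ ∃ b ∈ I, qm H b = x := Iff.rfl

lemma im_mul (H : CI J) {I : Submodule ℂ B} (hI : Idl I) :
    ∀ x ∈ im H I, ∀ y, x * y ∈ im H I ∧ y * x ∈ im H I := by
  rintro _ ⟨a, ha, rfl⟩ y
  obtain ⟨b, rfl⟩ := qm_surj H y
  exact ⟨⟨a * b, hI.mulR a ha b, map_mul _ _ _⟩, ⟨b * a, hI.mulL a ha b, map_mul _ _ _⟩⟩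

lemma isClosed_im (H : CI J) {I : Submodule ℂ B} (hI : Idl I) (hJI : J ≤ I) :
    IsClosed (im H I : Set (Q H)) := by
  refine isClosed_of_closure_subset fun x hx => ?_
  obtain ⟨b, rfl⟩ := qm_surj H x
  refine ⟨b, ?_, rfl⟩
  have h1 : b ∈ closure (I : Set B) := by
    rw [Metric.mem_closure_iff]
    intro ε hε
    obtain ⟨_, ⟨a, ha, rfl⟩, h2⟩ := Metric.mem_closure_iff.1 hx (ε / 2) (half_pos hε)
    rw [dist_eq_norm, ← map_sub] at h2
    obtain ⟨m, hm, hm2⟩ := Pool.Agent.Helper757.GL.exists_rep H (qm H (b - a)) (half_pos hε)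
    have h3 : m - (b - a) ∈ J := (qm_eq H _ _).1 hm
    refine ⟨b - m, ?_, ?_⟩
    · have e : b - m = a - (m - (b - a)) := by abel
      rw [SetLike.mem_coe, e]
      exact I.sub_mem ha (hJI h3)
    · rw [dist_eq_norm, sub_sub_cancel]
      linarith
  rwa [hI.closed.closure_eq] at h1

theorem t_BRS : S_BRS := by
  intro A B _ _ ι I hι hNS J e hJ hJI he hsa hid hmin
  by_contra hne
  have H : CI J := ⟨hJ.closed, fun a x hx => hJ.mulL x hx a, fun a x hx => hJ.mulR x hx a⟩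
  set p := qm H e with hp
  have hpI : p ∈ im H I := ⟨e, he, rfl⟩
  have h1 : star p = p := by
    rw [hp, ← map_star, qm_eq]
    exact hsa
  have h2 : p * p = p := by
    rw [hp, ← map_mul, qm_eq]
    exact hid
  have hM : Min p := by
    refine ⟨fun h0 => hne ((qm_zero H e).1 h0), h1, h2, fun x => ?_⟩
    obtain ⟨b, rfl⟩ := qm_surj H x
    obtain ⟨c, hc⟩ := hmin (e * b * e) (hι.idl.mulL e he (e * b))
    refine ⟨c, ?_⟩
    have h3 : qm H (e * (e * b * e) * e) = qm H (c • e) := (qm_eq H _ _).2 hc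
    rw [map_smul, ← hp] at h3
    rw [← h3]
    simp only [map_mul, ← hp]
    have e1 : p * (p * qm H b * p) * p = (p * p) * qm H b * (p * p) := by
      simp only [mul_assoc]
    rw [e1, h2]
  have hmul := im_mul H hι.idl
  have hcl := isClosed_im H hι.idl hJI
  let κ : A →⋆ₙₐ[ℂ] Q H := (qm H).comp ι
  have hκ : Continuous κ := AddMonoidHomClass.continuous_of_bound κ 1 fun x => by
    rw [one_mul]
    exact NonUnitalStarAlgHom.norm_apply_le κ x
  let K := hM.K (im H I) hmul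
  have hK : IsClosed (K : Set (Q H)) := hM.isClosed_K _ hmul hcl
  let L : NonUnitalStarSubalgebra ℂ A := K.comap κ
  have hL : IsClosed (L : Set A) := hK.preimage hκ
  have hmem : ∀ x : A, x ∈ L ↔ κ x ∈ K := fun x => Iff.rfl
  refine hNS L hL (fun x hx y => ?_) (Min.Hs hM)
    ((hM.rep.comp κ).comp (NonUnitalStarSubalgebraClass.subtype L)) (fun T => ⟨?_, ?_⟩)
  · rw [hmem] at hx
    rw [hmem, hmem, map_mul, map_mul]
    exact hM.K_mul _ hmul hx _
  · rintro ⟨x, rfl⟩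
    exact ((hM.mem_K _ hmul _).1 x.2).2.1.1
  · intro hT
    obtain ⟨k, hk, rfl⟩ := hM.compact_mem (im H I) hmul hcl hpI hT
    obtain ⟨b, hb, hbk⟩ := ((hM.mem_K _ hmul _).1 hk).1.1
    obtain ⟨a, rfl⟩ := (hι.mem b).1 hb
    have ha : a ∈ L := by
      rw [hmem]
      show qm H (ι a) ∈ K
      rw [hbk]
      exact hk
    refine ⟨⟨a, ha⟩, ?_⟩
    show hM.rep (qm H (ι a)) = hM.rep k
    rw [hbk]

end Pool.Agent.N607.ND
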